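import Pool.Agent.MP_ecfd11_lc.H57F.Fresh

/-!
Below an `ω`-strongly measurable cardinal some ordinal of cofinality `ω` has no short ordinal
definable cofinal subset.
-/

set_option synthInstance.maxSize 4000

namespace Pool.Agent.MP_ecfd11_lc.H57F

open Pool.Agent.MP_ecfd11_lc.H20 Pool.Agent.MP_ecfd11_lc.H3U

universe u

open ZFSet Function Classical Cardinal Filter

theorem gap_of_sm {d' d : ZFSet.{u}} (hd' : Regular Set.univ d') (h : d' ∈ d)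
    (hs : StronglyMeasurable Set.univ d) : ∃ m ∈ d, Gap d' m := by
  obtain ⟨ht, k, hk, hk', -, h2⟩ := hs
  by_contra h0
  refine h2 (solovay ht h hk hk' (CofOmega Set.univ) (stat_cofOmega ht) fun a ha ha' => ?_)
  by_contra h1
  obtain ⟨ao, F, -, f1, f2⟩ := ha'
  refine h0 ⟨a, ha, ao, ⟨img (app F) om, fun z hz => ?_,
    not_le.2 ((card_img_le _ _).trans_lt (hd'.card_lt hd'.2.1)), fun x hx => ?_⟩,
    fun R r0 r1 r2 => not_lt.1 fun h3 => h1 ⟨R, r0, r1, r2, hd'.mem_of_card_lt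
      (img_colIn_ord fun z hz => ao.mem (r1 hz)) ((card_img_le _ _).trans_lt h3)⟩⟩
  · obtain ⟨n, hn, rfl⟩ := mem_img.1 hz
    exact f1.app_mem' hn
  · obtain ⟨n, z, h4, h5⟩ := f2 x hx
    exact ⟨z, mem_img.2 ⟨n, (pair_mem_prod.1 (f1.1 h4)).1, f1.app_eq h4⟩, h5⟩

theorem od_of_sm {d' d r : ZFSet.{u}} (hd' : StronglyCompact d' r) (h : d' ∈ d)
    (hs : StronglyMeasurable Set.univ d) (sl : ∀ m ∈ d, card (powerset m) < card d)
    (ro : r.IsOrdinal) (hk : Bd (card d) r) (A : ZFSet.{u} → ZFSet.{u})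
    (a0 : Tm Set.univ On (fun v => A (v 0))) (a1 : ∀ b ∈ r, ∀ a ∈ b, A a ⊆ A b)
    {W x : ZFSet.{u}} (w0 : OD Set.univ W) (x1 : x ⊆ W) (x2 : ∀ z, z ∈ x → ∃ a, a ∈ r ∧ z ∈ A a)
    (x3 : ∀ a, a ∈ r → OD Set.univ (x ∩ A a)) : OD Set.univ x := by
  obtain ⟨m, m1, m2⟩ := gap_of_sm hd'.1 h hs
  have hb : Unc r := ⟨ro, fun y y1 y2 => hk y y1 (y2.trans_lt (hs.1.card_lt hs.1.2.1))⟩
  exact od_of_traces hd'.1 (refl_bd hd' hb (hk.mono (hs.1.card_lt h).le)) hb m2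
    (hk.mono (Order.succ_le_of_lt (sl m m1))) A a0 a1 w0 x1 x2 x3

end Pool.Agent.MP_ecfd11_lc.H57F
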