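import Pool.Agent.MP_ecfd11_lc.H3U.Filt

/-!
The club filter of an ordinal of large cofinality: completeness and stationary reflection.
-/

set_option synthInstance.maxSize 4000

namespace Pool.Agent.MP_ecfd11_lc.H57F

open Pool.Agent.MP_ecfd11_lc.H20 Pool.Agent.MP_ecfd11_lc.H3U

universe u

open ZFSet Function Classical Cardinal Filter

variable {r d S : ZFSet.{u}} {k : Cardinal.{u}}

/-- Subsets of `r` of size less than `k` are bounded in `r`. -/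
def Bd (k : Cardinal.{u}) (r : ZFSet.{u}) : Prop :=
  ∀ y, y ⊆ r → card y < k → ∃ c ∈ r, ∀ z ∈ y, z ∈ c

theorem Bd.mono {k' : Cardinal.{u}} (h : Bd k r) (hk : k' ≤ k) : Bd k' r :=
  fun y h1 h2 => h y h1 (h2.trans_le hk)

theorem exists_frame (hb : Unc r) : ∃ (k : Cardinal.{u}) (E : ZFSet.{u}), Club r E ∧ Bd k r ∧
    ∀ e ∈ r, card (E ∩ e) < k := by
  obtain ⟨k, ⟨Y, y1, y2, y3⟩, hk⟩ := (wellFounded_lt (α := Cardinal.{u})).has_min
    {k | ∃ Y, Y ⊆ r ∧ (∀ x ∈ r, ∃ y ∈ Y, x ∈ y) ∧ card Y = k}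
    ⟨_, r, subset_rfl, fun x hx => hb.succ hx, rfl⟩
  obtain ⟨G, hG⟩ := exists_surj_of_card_le (a := k.ord.toZFSet) (b := Y) (by rw [card_ord', y3])
  have ko := isOrdinal_toZFSet k.ord
  obtain ⟨X, hX⟩ : ∃ X, X = img G (k.ord.toZFSet.sep fun i => G i ∈ r ∧
      ∀ j ∈ i, G j ∈ r → G j ∈ G i) := ⟨_, rfl⟩
  have x1 : X ⊆ r := fun x hx => by
    obtain ⟨i, hi, rfl⟩ := mem_img.1 (hX ▸ hx)
    exact (mem_sep.1 hi).2.1
  have x2 : ∀ x ∈ r, ∃ y ∈ X, x ∈ y := fun x hx => by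
    obtain ⟨y, z1, z2⟩ := y2 x hx
    obtain ⟨i, hi, rfl⟩ := hG y z1
    obtain ⟨j, ⟨j1, j2, j3⟩, j4⟩ := exists_min_mem
      (p := fun j => j ∈ k.ord.toZFSet ∧ G j ∈ r ∧ x ∈ G j) ⟨hi, y1 z1, z2⟩
    refine ⟨G j, hX ▸ mem_img.2 ⟨j, mem_sep.2 ⟨j1, j2, fun i hi hi' => ?_⟩, rfl⟩, j3⟩
    refine (hb.1.mem hi').mem_of_subset_of_mem (hb.1.mem j2) ?_ j3
    exact ((hb.1.mem hx).notMem_iff_subset (hb.1.mem hi')).1 fun h =>
      j4 i hi ⟨ko.mem_trans hi j1, hi', h⟩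
  have x3 : ∀ e ∈ r, card (X ∩ e) < k := fun e he => by
    obtain ⟨y, z1, z2⟩ := y2 e he
    obtain ⟨i, hi, rfl⟩ := hG y z1
    refine lt_of_le_of_lt ((card_mono (y := img G i) fun x hx => ?_).trans (card_img_le _ _))
      ((mem_ord_iff (ko.mem hi)).1 hi)
    obtain ⟨j, hj, rfl⟩ := mem_img.1 (hX ▸ (mem_inter.1 hx).1)
    obtain ⟨j1, j2, j3⟩ := mem_sep.1 hj
    have h2 := (hb.1.mem (y1 z1)).mem_trans (mem_inter.1 hx).2 z2
    rcases (ko.mem j1).mem_trichotomous (ko.mem hi) with h3 | rfl | h3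
    exacts [mem_img.2 ⟨j, h3, rfl⟩, absurd h2 (mem_irrefl _),
      absurd (j3 i h3 (y1 z1)) (mem_asymm h2)]
  have hc := hb.club_lim x1 x2
  refine ⟨k, lim r X, hc, fun y z1 z2 => ?_, fun e he => ?_⟩
  · by_contra h2
    push Not at h2
    refine hk _ ⟨y, z1, fun x hx => ?_, rfl⟩ z2
    obtain ⟨z, z3, z4⟩ := h2 _ (hb.succ_mem hx)
    exact ⟨z, z3, ((hb.1.mem (z1 z3)).notMem_iff_subset (hb.1.mem (hb.succ_mem hx))).1 z4
      (mem_insert _ _)⟩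
  · obtain ⟨g, g1, g2⟩ := hc.2.1 e he
    obtain ⟨g3, -, g4⟩ := mem_sep.1 g1
    have go := hb.1.mem g3
    refine lt_of_le_of_lt ((card_mono fun z hz => ?_).trans (card_lim_le (X := X ∩ g) go
      (fun z hz => (mem_inter.1 hz).2) fun b hb => ?_)) (x3 g g3)
    · obtain ⟨z1, z2⟩ := mem_inter.1 hz
      obtain ⟨-, z3, z4⟩ := mem_sep.1 z1
      have z5 := go.mem_trans z2 g2
      refine mem_sep.2 ⟨z5, z3, fun x hx => ?_⟩
      obtain ⟨y, w1, w2, w3⟩ := z4 x hx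
      exact ⟨y, mem_inter.2 ⟨w1, go.mem_trans w3 z5⟩, w2, w3⟩
    · obtain ⟨y, w1, w2, w3⟩ := g4 b hb
      exact ⟨y, mem_inter.2 ⟨w1, w3⟩, w2⟩

theorem ev_small (hb : Unc r) (hk : Bd k r) {x : ZFSet.{u}} (hx : card x < k)
    {p : ZFSet.{u} → ZFSet.{u} → Prop} (h : ∀ i ∈ x, ∀ᶠ L in cf S hb, p i L) :
    ∀ᶠ L in cf S hb, ∀ i ∈ x, p i L := by
  have ao := isOrdinal_toZFSet (card x).ord
  have ha : (card x).ord.toZFSet ∈ r := by
    by_contra h1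
    rw [ao.notMem_iff_subset hb.1] at h1
    obtain ⟨c, c1, c2⟩ := hk r subset_rfl (((card_mono h1).trans_eq (card_ord' _)).trans_lt hx)
    exact mem_irrefl c (c2 c c1)
  obtain ⟨G, hG⟩ := exists_surj_of_card_le (a := (card x).ord.toZFSet) (b := x)
    (by rw [card_ord'])
  filter_upwards [ev_diag' (S := S) hb (X := (card x).ord.toZFSet) hk
    (fun e _ => ((card_mono fun z hz => (mem_inter.1 hz).1).trans_eq (card_ord' _)).trans_lt hx)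
    (p := fun j L => G j ∈ x → p (G j) L) fun j _ => by
      by_cases e : G j ∈ x
      · filter_upwards [h _ e] with L h1 _ using h1
      · exact Eventually.of_forall fun _ h1 => absurd h1 e,
    ev_above hb ha, ev_mem hb] with L l1 l2 l3 i hi
  obtain ⟨j, hj, rfl⟩ := hG i hi
  exact l1 j hj ((hb.1.mem l3.2).mem_trans hj l2) hi

theorem refl_bd (h : StronglyCompact d r) (hb : Unc r) (hk : Bd (card d) r) : Refl d r := by
  obtain ⟨hd, U, hU, u1, u2⟩ := h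
  have hdl := hb.empty_mem
  have cpl : ∀ (x : ZFSet.{u}) (p : ZFSet.{u} → ZFSet.{u} → Prop), card x < card d →
      (∀ i ∈ x, ∀ᶠ s in (U : Filter ZFSet.{u}), p i s) →
      ∀ᶠ s in (U : Filter ZFSet.{u}), ∀ i ∈ x, p i s := fun x p hx h =>
    (eventually_cardinal_ball (S := (x : Set ZFSet.{u})) (p := fun s i _ => p i s) (by
      have := cardinalMk_coe_sort (x := x)
      change #x < _
      rw [this]; exact lift_lt.2 hx)).2 h
  have hom : card om < card d := hd.card_lt hd.2.1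
  have wf : WellFounded fun f g : ZFSet.{u} → ZFSet.{u} =>
      ∀ᶠ s in (U : Filter ZFSet.{u}), f s ∈ g s := by
    rw [wellFounded_iff_isEmpty_descending_chain]
    refine ⟨fun ⟨F, hF⟩ => ?_⟩
    obtain ⟨s, hs⟩ := (cpl om (fun i s => ∀ n, nat n = i → F (n + 1) s ∈ F n s) hom
      fun i hi => by
        obtain ⟨o, ho, rfl⟩ := Ordinal.mem_toZFSet_iff.1 hi
        obtain ⟨n, rfl⟩ := Ordinal.lt_omega0.1 ho
        filter_upwards [hF n] with s hs m hm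
        rwa [nat_inj.1 hm]).exists
    exact (wellFounded_iff_isEmpty_descending_chain.1 mem_wf).false ⟨fun n => F n s, fun n =>
      hs _ (Ordinal.toZFSet_mem_toZFSet_iff.2 (Ordinal.natCast_lt_omega0 n)) n rfl⟩
  have h0 : ∀ s, ∃ b ∈ r, s ⊆ r ∧ card s < card d → ∀ i ∈ s, i ∈ b := fun s => by
    by_cases hs : s ⊆ r ∧ card s < card d
    · obtain ⟨b, h1, h2⟩ := hk s hs.1 hs.2
      exact ⟨b, h1, fun _ => h2⟩
    · exact ⟨_, hdl, fun h => absurd h hs⟩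
  choose g g1 g2 using h0
  obtain ⟨f, ⟨f1, f2⟩, f3⟩ := wf.has_min
    {f | (∀ s, f s ∈ r) ∧ ∀ a ∈ r, ∀ᶠ s in (U : Filter ZFSet.{u}), a ∈ f s}
    ⟨g, g1, fun a ha => by
      filter_upwards [u1, u2 a ha] with s h1 h2 using g2 s h1 a h2⟩
  have fo : ∀ s, (f s).IsOrdinal := fun s => hb.1.mem (f1 s)
  have key : ∀ p : ZFSet.{u} → ZFSet.{u} → Prop,
      (∀ᶠ s in (U : Filter ZFSet.{u}), ∃ y ∈ f s, p s y) →
      ∃ a ∈ r, ∀ᶠ s in (U : Filter ZFSet.{u}), ∃ y ∈ f s, y ∈ a ∧ p s y := fun p hp => by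
    have h1 : ∀ s, ∃ y ∈ r, (∃ y ∈ f s, p s y) → y ∈ f s ∧ p s y := fun s => by
      by_cases hs : ∃ y ∈ f s, p s y
      · obtain ⟨y, h1, h2⟩ := hs
        exact ⟨y, hb.1.mem_trans h1 (f1 s), fun _ => ⟨h1, h2⟩⟩
      · exact ⟨_, hdl, fun h => absurd h hs⟩
    choose k k1 k2 using h1
    have h2 : ¬ ∀ a ∈ r, ∀ᶠ s in (U : Filter ZFSet.{u}), a ∈ k s := fun h2 =>
      f3 k ⟨k1, h2⟩ (by filter_upwards [hp] with s hs using (k2 s hs).1)
    push Not at h2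
    obtain ⟨a, ha, h2⟩ := h2
    refine ⟨_, hb.succ_mem ha, ?_⟩
    filter_upwards [hp, h2] with s h3 h4
    exact ⟨k s, (k2 s h3).1, mem_insert_iff.2 ((hb.1.mem (k1 s)).eq_or_mem_of_subset
      (hb.1.mem ha) (((hb.1.mem ha).notMem_iff_subset (hb.1.mem (k1 s))).1 h4)), (k2 s h3).2⟩
  have cof : ∀ p : ZFSet.{u} → ZFSet.{u} → Prop,
      (∀ a ∈ r, ∃ z ∈ r, a ∈ z ∧ ∀ᶠ s in (U : Filter ZFSet.{u}), p s z) →
      ∀ᶠ s in (U : Filter ZFSet.{u}), ∀ x ∈ f s, ∃ z ∈ f s, x ∈ z ∧ p s z := fun p hp => by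
    by_contra h1
    obtain ⟨a, ha, h2⟩ := key (fun s x => ¬ ∃ z ∈ f s, x ∈ z ∧ p s z) (by
      filter_upwards [Ultrafilter.eventually_not.2 h1] with s hs
      push Not at hs ⊢
      exact hs)
    obtain ⟨z, z1, z2, z3⟩ := hp a ha
    obtain ⟨s, ⟨y, y1, y2, y3⟩, h3, h4⟩ := (h2.and (z3.and (f2 z z1))).exists
    exact y3 ⟨z, h4, (hb.1.mem z1).mem_trans y2 z2, h3⟩
  intro x S hx hS
  rintro ⟨E, e1, e2⟩
  have a1 : ∀ᶠ s in (U : Filter ZFSet.{u}), Sm d (f s) := by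
    filter_upwards [u1, cof (fun s z => z ∈ s) fun a ha => ⟨_, hb.succ_mem ha, mem_insert _ _,
      u2 _ (hb.succ_mem ha)⟩] with s h1 h2
    refine ⟨s ∩ f s, fun z hz => (mem_inter.1 hz).2, not_le.2 ((card_mono fun z hz =>
      (mem_inter.1 hz).1).trans_lt h1.2), fun y hy => ?_⟩
    obtain ⟨z, z1, z2, z3⟩ := h2 y hy
    exact ⟨z, mem_inter.2 ⟨z3, z1⟩, z2⟩
  have a2 : ∀ᶠ s in (U : Filter ZFSet.{u}), f s ∈ E := by
    filter_upwards [f2 _ hdl, cof (fun _ z => z ∈ E) fun a ha => by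
      obtain ⟨z, z1, z2⟩ := e1.2.1 a ha
      exact ⟨z, e1.1 z1, z2, Eventually.of_forall fun _ => z1⟩] with s h1 h2
    refine e1.2.2 _ (f1 s) ⟨_, h1⟩ fun y hy => ?_
    obtain ⟨z, z1, z2, z3⟩ := h2 y hy
    exact ⟨z, z3, z2, z1⟩
  have a3 : ∀ᶠ s in (U : Filter ZFSet.{u}), Unc (f s) := by
    by_contra h1
    have h2 : ∀ s, ∃ G : ZFSet.{u} → ZFSet.{u}, ¬ Unc (f s) →
        ∀ c ∈ f s, ∃ n ∈ om, G n ∈ f s ∧ G n ∉ c := fun s => by
      by_cases hs : Unc (f s)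
      · exact ⟨id, fun h => absurd hs h⟩
      · simp only [Unc, fo s, true_and, not_forall, not_exists, not_and] at hs
        obtain ⟨y, y1, y2, y3⟩ := hs
        obtain ⟨G, hG⟩ := exists_surj_of_card_le y2
        refine ⟨G, fun _ c hc => ?_⟩
        obtain ⟨z, z1, z2⟩ := y3 c hc
        obtain ⟨n, hn, rfl⟩ := hG z z1
        exact ⟨n, hn, y1 z1, z2⟩
    choose G hG using h2
    have h3 : ∀ n, ∃ a ∈ r, ∀ᶠ s in (U : Filter ZFSet.{u}), G s n ∈ f s → G s n ∈ a := fun n => by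
      obtain ⟨a, ha, h3⟩ := key (fun s y => G s n ∈ f s → y = G s n) (by
        filter_upwards [f2 _ hdl] with s hs
        by_cases h : G s n ∈ f s
        exacts [⟨_, h, fun _ => rfl⟩, ⟨_, hs, fun h' => absurd h' h⟩])
      refine ⟨a, ha, ?_⟩
      filter_upwards [h3] with s ⟨y, _, y2, y3⟩ h using y3 h ▸ y2
    choose A a1 a2 using h3
    obtain ⟨c, hc, h3⟩ := hb.2 (img A om) (fun z hz => by
      obtain ⟨n, -, rfl⟩ := mem_img.1 hz
      exact a1 n) (card_img_le _ _)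
    obtain ⟨s, h4, h5, h6⟩ := ((Ultrafilter.eventually_not.2 h1).and ((f2 c hc).and
      (cpl om (fun n s => G s n ∈ f s → G s n ∈ A n) hom fun n _ => a2 n))).exists
    obtain ⟨n, hn, h7, h8⟩ := hG s h4 c h5
    exact h8 ((hb.1.mem hc).mem_trans (h6 n hn h7) (h3 _ (mem_img.2 ⟨n, hn, rfl⟩)))
  have a4 : ∀ i ∈ x, ∀ᶠ s in (U : Filter ZFSet.{u}), ¬ Null (f s) (S i) := fun i hi => by
    rw [Ultrafilter.eventually_not]
    intro h1
    have h2 : ∀ s, ∃ c, Null (f s) (S i) → Club (f s) c ∧ ∀ y ∈ S i, y ∉ c := fun s => by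
      by_cases hs : Null (f s) (S i)
      exacts [hs.imp fun _ h _ => h, ⟨∅, fun h => absurd h hs⟩]
    choose c hc using h2
    have h3 : ∀ b ∈ r, ∃ a ∈ r, ∀ᶠ s in (U : Filter ZFSet.{u}),
        ∃ y ∈ f s, y ∈ a ∧ y ∈ c s ∧ b ∈ y := fun b hb => key _ (by
      filter_upwards [h1, f2 b hb] with s h3 h4
      obtain ⟨y, y1, y2⟩ := (hc s h3).1.2.1 b h4
      exact ⟨y, (hc s h3).1.1 y1, y1, y2⟩)
    choose! N n1 n2 using h3
    obtain ⟨k, D, d1, d2, d3⟩ := exists_frame hb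
    have := neBot hb (hS i hi).2
    obtain ⟨g, h6, h5, hg, h4⟩ := ((ev_diag' (S := S i) hb d2 d3 (p := fun b g => N b ∈ g)
      fun b hb' => ev_above hb (n1 b (d1.1 hb'))).and
      ((ev_club hb (hb.club_lim d1.1 d1.2.1)).and (ev_mem hb))).exists
    obtain ⟨-, h5, h5'⟩ := mem_sep.1 h5
    obtain ⟨y, y1, y2, y3⟩ := (hS i hi).1 g hg
    choose! e e3 e4 e5 using h5'
    obtain ⟨s, h7, h8, h9⟩ := (h1.and ((f2 g h4).and (cpl y _ (not_le.1 y2) fun b hb' =>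
      n2 (e b) (d1.1 (e3 b (y1 hb')))))).exists
    refine (hc s h7).2 g hg ((hc s h7).1.2.2 g h8 h5 fun b hb' => ?_)
    obtain ⟨z, z1, z2⟩ := y3 b hb'
    obtain ⟨w, w1, w2, w3, w4⟩ := h9 z z1
    have wo := (fo s).mem w1
    exact ⟨w, w3, wo.mem_trans z2 (wo.mem_trans (e4 z (y1 z1)) w4),
      (hb.1.mem h4).mem_trans w2 (h6 _ (e3 z (y1 z1)) (e5 z (y1 z1)))⟩
  obtain ⟨s, h1, h2, h3, h4⟩ := (a1.and (a2.and (a3.and (cpl x _ hx a4)))).exists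
  exact e2 _ (mem_sep.2 ⟨f1 s, h1, h3, h4⟩) h2

end Pool.Agent.MP_ecfd11_lc.H57F
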