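import Pool.Agent.MP_ecfd11_lc.H57F.Refl
import Pool.Agent.MP_ecfd11_lc.H3U.Lub

/-!
Atoms of the club filter at an ordinal of large cofinality, and fresh sets.
-/

set_option synthInstance.maxSize 4000

namespace Pool.Agent.MP_ecfd11_lc.H57F

open Pool.Agent.MP_ecfd11_lc.H20 Pool.Agent.MP_ecfd11_lc.H3U

universe u

open ZFSet Function Classical Cardinal Filter

variable {r d S m : ZFSet.{u}} {k : Cardinal.{u}}

/-- `m` has cofinality below `d`, but no ordinal definable cofinal subset of size below `d`. -/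
def Gap (d m : ZFSet.{u}) : Prop :=
  m.IsOrdinal ∧ Sm d m ∧
    ∀ R, OD Set.univ R → R ⊆ m → (∀ x ∈ m, ∃ z ∈ R, x ∈ z) → card d ≤ card R

theorem sat_bd (hd : Regular Set.univ d) (hr : Refl d r) (hb : Unc r) (hm : Gap d m)
    (T : ZFSet.{u} → ZFSet.{u}) (t0 : Tm Set.univ On (fun v => T (v 0)))
    (t1 : ∀ i ∈ m, (∀ y ∈ T i, Sm d y) ∧ ¬ Null r (T i)) :
    ¬ ∀ i ∈ m, ∀ j ∈ m, ∀ y ∈ T i, y ∈ T j → i = j := by
  intro t2
  obtain ⟨mo, ⟨Z, z1, z2, z3⟩, h2⟩ := hm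
  have h3 := hr Z T (not_le.1 z2) fun i hi => t1 i (z1 hi)
  obtain ⟨b, hb'⟩ : ∃ b, b ∈ r.sep fun b => Sm d b ∧ Unc b ∧ ∀ i ∈ Z, ¬ Null b (T i) := by
    by_contra h4
    exact h3 (hb.null_empty.mono fun x hx _ => absurd ⟨x, hx⟩ h4)
  obtain ⟨-, b1, b2, b3⟩ := mem_sep.1 hb'
  have : Tm Set.univ On (fun _ => m) := Tm.ofOrd mo
  have : Tm Set.univ On (fun _ => b) := Tm.ofOrd b2.1
  have := Tm.one (C := Set.univ) (A := On) T
  refine (h2 (m.sep fun i => ¬ Null b (T i)) (od_iff.2 inferInstance) sep_subset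
    fun x hx => ?_).not_gt ?_
  · obtain ⟨y, y1, y2⟩ := z3 x hx
    exact ⟨y, mem_sep.2 ⟨z1 y1, b3 y y1⟩, y2⟩
  · obtain ⟨c, c1, c2⟩ := b1.exists_club hd b2.1
    have h4 : ∀ i ∈ m.sep fun i => ¬ Null b (T i), ∃ z ∈ T i, z ∈ c := fun i hi => by
      by_contra h4
      push Not at h4
      exact (mem_sep.1 hi).2 ⟨c, c1, h4⟩
    choose! W w1 w2 using h4
    exact (card_le_of_inj W w2 fun i hi j hj e => t2 i (mem_sep.1 hi).1 j (mem_sep.1 hj).1 _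
      (w1 i hi) (e ▸ w1 j hj)).trans_lt c2

theorem atom_bd (hd : Regular Set.univ d) (hr : Refl d r) (hb : Unc r) (hm : Gap d m)
    (hk : Bd (Order.succ (card (powerset m))) r) (s0 : OD Set.univ S)
    (s1 : ∀ y ∈ S, y ∈ r ∧ Sm d y) (s2 : ¬ Null r S) : ∃ B, Atom d r B ∧ B ⊆ S := by
  suffices h : ∃ B, B ⊆ S ∧ OD Set.univ B ∧ ¬ Null r B ∧
      ∀ X, OD Set.univ X → Null r (B ∩ X) ∨ Null r (B \ X) by
    obtain ⟨B, b1, b2, b3⟩ := h
    exact ⟨B, ⟨b2, fun y hy => s1 y (b1 hy), b3⟩, b1⟩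
  by_contra h0
  have hko := hm.1
  have : Tm Set.univ On (fun _ => S) := od_iff.1 s0
  have : Tm Set.univ On (fun _ => r) := Tm.ofOrd hb.1
  have : Tm Set.univ On (fun _ => m) := Tm.ofOrd hko
  obtain ⟨sp, p0, p1⟩ := od_choice (C := Set.univ)
    ((powerset S).sep fun B => OD Set.univ B ∧ ¬ Null r B)
    (fun B X => ¬ Null r (B ∩ X) ∧ ¬ Null r (B \ X)) fun B hB => by
      obtain ⟨b1, b2, b3⟩ := mem_sep.1 hB
      rw [mem_powerset] at b1
      by_contra h3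
      refine h0 ⟨B, b1, b2, b3, fun X hX => ?_⟩
      by_contra h4
      exact h3 ⟨X, hX, not_or.1 h4⟩
  have := Tm.one (C := Set.univ) (A := On) sp
  have h3 := fun x : ZFSet.{u} => exists_rec (fun x => x) mem_wf fun a g => S.sep fun y =>
    ∀ b, b ∈ a → (y ∈ sp (app g b) ↔ x ∈ sp (app g b))
  choose N hN using h3
  have hN0 : Tm Set.univ On (fun v => N (v 1) (v 0)) :=
    Tm.recursion (fun _ x => x) (fun v a g => S.sep fun y =>
      ∀ b, b ∈ a → (y ∈ sp (app g b) ↔ v 0 ∈ sp (app g b)))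
      (fun v => N (v 0)) (fun _ _ => mem_wf) fun _ _ a _ => hN _ a
  have hN1 : ∀ (s t : (ℕ → ZFSet.{u}) → ZFSet.{u}) [Tm Set.univ On s] [Tm Set.univ On t],
      Tm Set.univ On (fun v => N (s v) (t v)) := fun s t _ _ => Tm.two (fun a b => N b a) t s
  have hN2 : ∀ x a y, y ∈ N x a ↔ y ∈ S ∧
      ∀ b ∈ a, (y ∈ sp (N x b) ↔ x ∈ sp (N x b)) := fun x a y => by
    rw [hN x a, mem_sep]
    refine and_congr_right fun _ => forall_congr' fun b =>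
      forall_congr' fun hb => by rw [app_gr hb]
  by_cases h4 : ∃ x ∈ r, ∀ b ∈ m, ¬ Null r (N x b)
  · obtain ⟨x, hx, h4⟩ := h4
    have : Tm Set.univ On (fun _ => x) := Tm.ofOrd (hb.1.mem hx)
    refine sat_bd hd hr hb hm
      (fun b => (N x b).sep fun y => ¬ (y ∈ sp (N x b) ↔ x ∈ sp (N x b)))
      inferInstance (fun b hb => ⟨fun y hy => (s1 y ((hN2 _ _ _).1 (mem_sep.1 hy).1).1).2,
        fun h5 => ?_⟩) fun b hb b' hb' y y1 y2 => ?_
    · have : Tm Set.univ On (fun _ => b) := Tm.ofOrd (hko.mem hb)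
      obtain ⟨h6, h7⟩ := p1 (N x b) (mem_sep.2 ⟨mem_powerset.2 fun y hy =>
        ((hN2 _ _ _).1 hy).1, od_iff.2 inferInstance, h4 b hb⟩) trivial
      by_cases h8 : x ∈ sp (N x b)
      · exact h7 (h5.mono fun y hy _ => mem_sep.2 ⟨(mem_sdiff.1 hy).1,
          fun e => (mem_sdiff.1 hy).2 (e.2 h8)⟩)
      · exact h6 (h5.mono fun y hy _ => mem_sep.2 ⟨(mem_inter.1 hy).1,
          fun e => h8 (e.1 (mem_inter.1 hy).2)⟩)
    · rw [mem_sep] at y1 y2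
      rcases (hko.mem hb).mem_trichotomous (hko.mem hb') with h5 | h5 | h5
      exacts [absurd (((hN2 _ _ _).1 y2.1).2 b h5) y1.2, h5,
        absurd (((hN2 _ _ _).1 y1.1).2 b' h5) y2.2]
  · push Not at h4
    have := neBot hb s2
    suffices h5 : ∀ j ∈ powerset m, ∀ᶠ y in cf S hb, (m.sep fun b => y ∈ sp (N y b)) ≠ j by
      obtain ⟨y, h6⟩ := (ev_small (S := S) hb hk (Order.lt_succ _) h5).exists
      exact h6 _ (mem_powerset.2 sep_subset) rfl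
    intro j _
    by_cases h5 : ∃ x ∈ r, (m.sep fun b => x ∈ sp (N x b)) = j
    swap
    · filter_upwards [ev_mem hb] with x hx e using h5 ⟨x, hx.2, e⟩
    obtain ⟨x, x1, x3⟩ := h5
    obtain ⟨b, hb', h6⟩ := h4 x x1
    refine (ev_iff hb).2 (h6.mono fun y hy y1 => ?_)
    obtain ⟨y2, y3⟩ := mem_sep.1 hy
    have h7 := x3.trans (not_not.1 y3).symm
    have h8 : ∀ b ∈ m, x ∈ sp (N x b) ↔ y ∈ sp (N y b) := fun b hb => by
      simpa [hb] using ZFSet.ext_iff.1 h7 b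
    have h9 : ∀ a, a ∈ m → N x a = N y a := fun a => by
      induction a using ZFSet.inductionOn with
      | _ a ih =>
        intro ha
        ext z
        rw [hN2, hN2]
        refine and_congr_right fun _ => forall_congr' fun b => forall_congr' fun hb => ?_
        rw [h8 b (hko.mem_trans hb ha), ih b hb (hko.mem_trans hb ha)]
    rw [h9 b hb', hN2]
    exact ⟨y2, fun _ _ => Iff.rfl⟩

/-- No ordinal definable set splits `S` into two sets stationary in `b`. -/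
def At (S b : ZFSet.{u}) : Prop :=
  ∀ X, OD Set.univ X → Null b (S ∩ X) ∨ Null b (S \ X)

theorem glue_bd (hd : Regular Set.univ d) (hr : Refl d r) (hb : Unc r) (hm : Gap d m)
    (hk : Bd (Order.succ (card (powerset m))) r) (h : Atom d r S) :
    Null r (r.sep fun b => Sm d b ∧ ¬ At S b) := by
  have : Tm Set.univ On (fun _ => S) := od_iff.1 h.1
  have : Tm Set.univ On (fun _ => r) := Tm.ofOrd hb.1
  have : Tm Set.univ On (fun _ => d) := Tm.ofOrd hd.1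
  by_contra h0
  obtain ⟨A, a1, a2⟩ := atom_bd hd hr hb hm hk (S := r.sep fun b => Sm d b ∧ ¬ At S b)
    (od_iff.2 (by unfold At; infer_instance))
    (fun y hy => ⟨(mem_sep.1 hy).1, (mem_sep.1 hy).2.1⟩) h0
  have : Tm Set.univ On (fun _ => A) := od_iff.1 a1.1
  obtain ⟨F, f0, f1⟩ := od_choice (C := Set.univ) A
    (fun b X => ¬ Null b (S ∩ X) ∧ ¬ Null b (S \ X)) fun b hb => by
      have := (mem_sep.1 (a2 hb)).2.2
      simp only [At, not_forall, not_or] at this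
      obtain ⟨X, h1, h2⟩ := this
      exact ⟨X, h1, h2⟩
  have := Tm.one (C := Set.univ) (A := On) F
  obtain ⟨Y, hY⟩ : ∃ Y, Y = r.sep fun x => Null r (A.sep fun b => ¬ x ∈ F b) := ⟨_, rfl⟩
  have y0 : OD Set.univ Y := hY ▸ od_iff.2 inferInstance
  have h1 : ∀ x ∈ r, ∀ᶠ b in cf A hb, (x ∈ F b ↔ x ∈ Y) := fun x hx => by
    by_cases e : x ∈ Y
    · have e' := e
      rw [hY] at e'
      filter_upwards [(ev_iff hb (p := fun b => x ∈ F b)).2 (mem_sep.1 e').2] with b h1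
        using iff_of_true h1 e
    · have : Tm Set.univ On (fun _ => x) := Tm.ofOrd (hb.1.mem hx)
      rcases a1.2.2.2 (r.sep fun b => x ∈ F b) (od_iff.2 inferInstance) with h2 | h2
      · refine (ev_iff hb).2 (h2.mono fun b b1 b2 => mem_inter.2 ⟨(mem_sep.1 b1).1,
          mem_sep.2 ⟨b2, by_contra fun h3 => (mem_sep.1 b1).2 (iff_of_false h3 e)⟩⟩)
      · exact absurd (hY ▸ mem_sep.2 ⟨hx, h2.mono fun b b1 _ => mem_sdiff.2
          ⟨(mem_sep.1 b1).1, fun h3 => (mem_sep.1 b1).2 (mem_sep.1 h3).2⟩⟩) e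
  obtain ⟨k, E, e1, e2, e3⟩ := exists_frame hb
  have h2 : ∀ D, Club r D → ∃ b ∈ A, ∃ c, Club b c ∧ ∀ x ∈ c, x ∈ D ∧ (x ∈ F b ↔ x ∈ Y) :=
    fun D hD => by
      have := neBot hb a1.2.2.1
      have h3 := hb.club_inter e1 hD
      obtain ⟨b, b1, b2, b3, -⟩ := ((ev_diag' (S := A) hb e2 e3 fun x hx =>
        h1 x (e1.1 hx)).and ((ev_club hb (hb.club_lim h3.1 h3.2.1)).and (ev_mem hb))).exists
      refine ⟨b, b3, _, club_inter_lim hb.1 h3 b2, fun x hx => ?_⟩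
      obtain ⟨x1, x2⟩ := mem_inter.1 hx
      exact ⟨(mem_inter.1 x1).2, b1 x (mem_inter.1 x1).1 x2⟩
  rcases h.2.2.2 Y y0 with ⟨D, d1, d2⟩ | ⟨D, d1, d2⟩ <;> obtain ⟨b, b1, c, c1, c2⟩ := h2 D d1
  · exact (f1 b b1 trivial).1 ⟨c, c1, fun x hx h3 => d2 x (mem_inter.2 ⟨(mem_inter.1 hx).1,
      (c2 x h3).2.1 (mem_inter.1 hx).2⟩) (c2 x h3).1⟩
  · exact (f1 b b1 trivial).2 ⟨c, c1, fun x hx h3 => d2 x (mem_sdiff.2 ⟨(mem_sdiff.1 hx).1,
      fun h4 => (mem_sdiff.1 hx).2 ((c2 x h3).2.2 h4)⟩) (c2 x h3).1⟩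

/-- A set all of whose traces along a definable increasing chain are ordinal definable is
ordinal definable. -/
theorem od_of_traces (hd : Regular Set.univ d) (hr : Refl d r) (hb : Unc r) (hm : Gap d m)
    (hk : Bd (Order.succ (card (powerset m))) r) (A : ZFSet.{u} → ZFSet.{u})
    (a0 : Tm Set.univ On (fun v => A (v 0))) (a1 : ∀ b ∈ r, ∀ a ∈ b, A a ⊆ A b)
    {W x : ZFSet.{u}} (w0 : OD Set.univ W) (x1 : x ⊆ W) (x2 : ∀ z, z ∈ x → ∃ a, a ∈ r ∧ z ∈ A a)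
    (x3 : ∀ a, a ∈ r → OD Set.univ (x ∩ A a)) : OD Set.univ x := by
  have : Tm Set.univ On (fun _ => r) := Tm.ofOrd hb.1
  have : Tm Set.univ On (fun _ => d) := Tm.ofOrd hd.1
  have : Tm Set.univ On (fun _ => W) := od_iff.1 w0
  have := Tm.one (C := Set.univ) (A := On) A
  obtain ⟨S, hS, -⟩ := atom_bd hd hr hb hm hk (S := r.sep fun b => Sm d b)
    (od_iff.2 inferInstance) (fun y hy => mem_sep.1 hy) fun h => hr ∅ (fun x => x)
      (by rw [card_empty]; exact aleph0_pos.trans hd.aleph0_lt)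
      (fun i hi => absurd hi (notMem_empty i))
      (h.mono fun b b1 b2 => mem_sep.2 ⟨b2, (mem_sep.1 b1).2.1⟩)
  have : Tm Set.univ On (fun _ => S) := od_iff.1 hS.1
  have := neBot hb hS.2.2.1
  obtain ⟨n, no, F, f0, f1, f2⟩ := od_rank ((powerset W).sep (OD Set.univ))
    fun x hx => (mem_sep.1 hx).2
  have := Tm.one (C := Set.univ) (A := On) F
  obtain ⟨B, hB⟩ : ∃ B, B = (powerset W).sep fun x => (∀ z, z ∈ x → ∃ a, a ∈ r ∧ z ∈ A a) ∧
    (∀ a, a ∈ r → OD Set.univ (x ∩ A a)) ∧ ¬ OD Set.univ x := ⟨_, rfl⟩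
  have : Tm Set.univ On (fun _ => B) := by rw [hB]; infer_instance
  have b1 : ∀ x ∈ B, ∀ a ∈ r, x ∩ A a ∈ (powerset W).sep (OD Set.univ) := fun x hx a ha =>
    mem_sep.2 ⟨mem_powerset.2 fun z hz => mem_powerset.1 (mem_sep.1 (hB ▸ hx)).1
      (mem_inter.1 hz).1, (mem_sep.1 (hB ▸ hx)).2.2.1 a ha⟩
  let Lt : ZFSet.{u} → ZFSet.{u} → Prop := fun x y =>
    Null r (S.sep fun a => ¬ F (x ∩ A a) ∈ F (y ∩ A a))
  have wf : WellFounded Lt := by
    rw [wellFounded_iff_isEmpty_descending_chain]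
    refine ⟨fun ⟨G, hG⟩ => ?_⟩
    obtain ⟨a, ha⟩ := (ev_nat (S := S) hb (p := fun n a => F (G (n + 1) ∩ A a) ∈ F (G n ∩ A a))
      fun n => (ev_iff hb).2 (hG n)).exists
    exact (wellFounded_iff_isEmpty_descending_chain.1 mem_wf).false
      ⟨fun n => F (G n ∩ A a), ha⟩
  have tot : ∀ x ∈ B, ∀ y ∈ B, ¬ Lt x y → ¬ Lt y x → x = y := fun x hx y hy h1 h2 => by
    by_contra h3
    obtain ⟨a0, ha0, h4⟩ : ∃ a0 ∈ r, ∀ a ∈ r, a0 ∈ a → x ∩ A a ≠ y ∩ A a := by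
      have h5 : ∀ x ∈ B, ∀ y z, z ∈ x → z ∉ y → ∃ a0 ∈ r, ∀ a ∈ r, a0 ∈ a → x ∩ A a ≠ y ∩ A a :=
        fun x hx y z z1 z2 => by
          obtain ⟨a0, h6, h7⟩ := (mem_sep.1 (hB ▸ hx)).2.1 z z1
          exact ⟨a0, h6, fun a ha h8 e => z2 (mem_inter.1
            (e ▸ mem_inter.2 ⟨z1, a1 a ha a0 h8 h7⟩ : z ∈ y ∩ A a)).1⟩
      by_contra h6
      refine h3 (ZFSet.ext fun z => ⟨fun z1 => by_contra fun z2 => h6 (h5 x hx y z z1 z2),
        fun z1 => by_contra fun z2 => h6 ?_⟩)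
      obtain ⟨a0, h7, h8⟩ := h5 y hy x z z1 z2
      exact ⟨a0, h7, fun a ha h9 => (h8 a ha h9).symm⟩
    have h5 := hr {∅, {∅}} (fun i => if i = ∅ then S.sep fun a => ¬ F (x ∩ A a) ∈ F (y ∩ A a)
      else S.sep fun a => ¬ F (y ∩ A a) ∈ F (x ∩ A a))
      (card_insert_le.trans_lt (by
        rw [card_singleton]
        exact (add_lt_aleph0 one_lt_aleph0 one_lt_aleph0).trans hd.aleph0_lt)) fun i _ => by
        split_ifs
        exacts [⟨fun y hy => (hS.2.1 y (mem_sep.1 hy).1).2, h1⟩,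
          ⟨fun y hy => (hS.2.1 y (mem_sep.1 hy).1).2, h2⟩]
    obtain ⟨b, ⟨c1, c2, c3⟩, c4, c5, -, c6⟩ := (((fr_iff (S := r) hb).2 h5).and_eventually
      (((ev_iff (S := r) hb (p := fun b => ¬ (Sm d b ∧ ¬ At S b))).2
        ((glue_bd hd hr hb hm hk hS).mono fun b hb _ =>
          mem_sep.2 ⟨(mem_sep.1 hb).1, not_not.1 (mem_sep.1 hb).2⟩)).and
      ((ev_above hb ha0).and (ev_mem hb)))).exists
    have c7 := c3 ∅ (mem_insert _ _)
    have c8 := c3 {∅} (mem_insert_of_mem _ (mem_singleton.2 rfl))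
    rw [if_pos rfl] at c7
    rw [if_neg fun e : ({∅} : ZFSet.{u}) = ∅ =>
      notMem_empty ∅ (by rw [← e]; exact mem_singleton.2 e)] at c8
    have : Tm Set.univ On (fun _ => b) := Tm.ofOrd c2.1
    obtain ⟨x', hx'⟩ : ∃ x', x' = x ∩ A b := ⟨_, rfl⟩
    obtain ⟨y', hy'⟩ : ∃ y', y' = y ∩ A b := ⟨_, rfl⟩
    have : Tm Set.univ On (fun _ => x') := od_iff.1 (hx' ▸ (mem_sep.1 (b1 x hx b c6)).2)
    have : Tm Set.univ On (fun _ => y') := od_iff.1 (hy' ▸ (mem_sep.1 (b1 y hy b c6)).2)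
    have e0 : ∀ x, ∀ a ∈ b, x ∩ A b ∩ A a = x ∩ A a := fun x a ha => ZFSet.ext fun z => by
      simp only [mem_inter]
      exact ⟨fun h => ⟨h.1.1, h.2⟩, fun h => ⟨⟨h.1, a1 b c6 a ha h.2⟩, h.2⟩⟩
    rcases not_not.1 (fun h => c4 ⟨c1, h⟩) (b.sep fun a => F (x' ∩ A a) ∈ F (y' ∩ A a))
      (od_iff.2 inferInstance) with h6 | h6
    · refine c8 ((c2.null_union h6 (H46.null_below c2 c5)).mono fun a a2 a3 => mem_union.2
        (or_iff_not_imp_right.2 fun h7 => mem_inter.2 ⟨(mem_sep.1 a2).1, mem_sep.2 ⟨a3, ?_⟩⟩))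
      have a4 := hb.1.mem_trans a3 c6
      have a5 : a0 ∈ a := by_contra fun h8 => h7 (mem_sep.2 ⟨a3, h8⟩)
      rw [hx', hy', e0 x a a3, e0 y a a3]
      rcases (no.mem (f1 _ (b1 x hx a a4))).mem_trichotomous (no.mem (f1 _ (b1 y hy a a4)))
        with h8 | h8 | h8
      exacts [h8, absurd (f2 _ (b1 x hx a a4) _ (b1 y hy a a4) h8) (h4 a a4 a5),
        absurd h8 (mem_sep.1 a2).2]
    · refine c7 (h6.mono fun a a2 a3 => mem_sdiff.2 ⟨(mem_sep.1 a2).1, fun h7 => ?_⟩)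
      have h8 := (mem_sep.1 h7).2
      rw [hx', hy', e0 x a a3, e0 y a a3] at h8
      exact (mem_sep.1 a2).2 h8
  by_contra h0
  obtain ⟨z, z1, z2⟩ := wf.has_min (B : Set ZFSet.{u})
    ⟨x, hB ▸ mem_sep.2 ⟨mem_powerset.2 x1, x2, x3, h0⟩⟩
  refine (mem_sep.1 (hB ▸ z1 : z ∈ _)).2.2.2 ?_
  have h1 : z = ⋃₀ (B.sep fun x => ∀ y, y ∈ B →
      ¬ Null r (S.sep fun a => ¬ F (y ∩ A a) ∈ F (x ∩ A a))) := by
    refine ZFSet.ext fun w => ⟨fun hw => mem_sUnion.2 ⟨z, mem_sep.2 ⟨z1, z2⟩, hw⟩, fun hw => ?_⟩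
    obtain ⟨y, y1, y2⟩ := mem_sUnion.1 hw
    obtain ⟨y3, y4⟩ := mem_sep.1 y1
    rwa [tot z z1 y y3 (y4 z z1) (z2 y y3)]
  rw [h1]
  exact od_iff.2 inferInstance

end Pool.Agent.MP_ecfd11_lc.H57F
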